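import Pool.Agent.Helper84.BT.Goals

/-!
# Packet BT-CAN (MP_57df85_nt)
-/

set_option autoImplicit false

namespace Pool.Agent.Helper18.BT.CAN

open Pool.Agent.Helper84.BT

theorem t : S_CAN := by
  intro q T U F hq hU h j
  induction j using Nat.strong_induction_on with
  | _ j ih =>
    intro hj
    have h1 := h j hj
    rw [PowerSeries.coeff_mul, Finset.Nat.sum_antidiagonal_eq_sum_range_succ_mk,
      Finset.sum_range_succ'] at h1
    simp only [Nat.sub_zero, PowerSeries.coeff_zero_eq_constantCoeff] at h1
    have h2 : q ^ (T - j) ∣ ∑ k ∈ Finset.range j,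
        PowerSeries.coeff (k + 1) U * PowerSeries.coeff (j - (k + 1)) F := by
      refine Finset.dvd_sum fun k hk => ?_
      have hk' := Finset.mem_range.1 hk
      have h3 := ih (j - (k + 1)) (by omega) (by omega)
      refine Dvd.dvd.mul_left ((pow_dvd_pow q ?_).trans h3) _
      omega
    have h3 := (dvd_add_right h2).1 h1
    exact (IsCoprime.pow_left ((Prime.coprime_iff_not_dvd hq).2 hU)).dvd_of_dvd_mul_left h3

end Pool.Agent.Helper18.BT.CAN
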